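import Mathlib

/-!
# Invariant means along an orbit

For a map `T` of a set `X` and a point `x` there is an invariant positive normalised linear
functional on every space of bounded functions on `X`, computed on the orbit of `x`: a limit of the
averages `(f(x) + f(T x) + .. + f(T^(N-1) x)) / N` along an ultrafilter.
-/

namespace Pool.Agent.H83.HP

open Filter Topology

/-- An invariant mean on the orbit of `x`. -/
theorem exists_mean {X : Type} (T : X → X) (x : X) (Fn : Submodule ℝ (X → ℝ))
    (bdd : ∀ f ∈ Fn, ∃ C : ℝ, ∀ y, |f y| ≤ C) :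
    ∃ I : Fn →ₗ[ℝ] ℝ, (∀ f f' : Fn, (∀ y, f'.1 y = f.1 (T y)) → I f' = I f) ∧
      ∀ (f : Fn) (C : ℝ), (∀ j : ℕ, f.1 (T^[j] x) ≤ C) → I f ≤ C := by
  classical
  -- the averages
  let a : (X → ℝ) → ℕ → ℝ := fun f N => (∑ j ∈ Finset.range N, f (T^[j] x)) / N
  have ha_le : ∀ (f : X → ℝ) (C : ℝ), (∀ j : ℕ, f (T^[j] x) ≤ C) → ∀ N, 0 < N → a f N ≤ C := by
    intro f C h N hN
    have h1 : (∑ j ∈ Finset.range N, f (T^[j] x)) ≤ N * C := by
      calc (∑ j ∈ Finset.range N, f (T^[j] x)) ≤ ∑ _j ∈ Finset.range N, C :=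
            Finset.sum_le_sum fun j _ => h j
        _ = N * C := by simp
    have h2 : (0 : ℝ) < N := by exact_mod_cast hN
    change (∑ j ∈ Finset.range N, f (T^[j] x)) / N ≤ C
    rw [div_le_iff₀ h2]
    linarith
  have ha_abs : ∀ (f : X → ℝ) (C : ℝ), (∀ y, |f y| ≤ C) → ∀ N, a f N ∈ Set.Icc (-C) C := by
    intro f C h N
    rcases Nat.eq_zero_or_pos N with hN | hN
    · subst hN
      have h0 : a f 0 = 0 := by simp [a]
      have hC : 0 ≤ C := (abs_nonneg _).trans (h x)
      rw [h0]
      exact ⟨by linarith, hC⟩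
    · refine ⟨?_, ha_le f C (fun j => (le_abs_self _).trans (h _)) N hN⟩
      have h1 := ha_le (fun y => - f y) C (fun j => (neg_le_abs _).trans (h _)) N hN
      have h2 : a (fun y => - f y) N = - a f N := by
        simp only [a, Finset.sum_neg_distrib, neg_div]
      rw [h2] at h1
      linarith
  -- the limits
  have hlim : ∀ f : Fn, ∃ l : ℝ, Tendsto (a f.1) (hyperfilter ℕ) (𝓝 l) := by
    intro f
    obtain ⟨C, hC⟩ := bdd f.1 f.2
    obtain ⟨l, _, hl⟩ := isCompact_Icc.ultrafilter_le_nhds
      ((hyperfilter ℕ).map (a f.1)) (by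
        rw [Ultrafilter.coe_map, le_principal_iff, mem_map]
        exact univ_mem' (ha_abs f.1 C hC))
    exact ⟨l, hl⟩
  choose I hI using hlim
  have hpos : ∀ᶠ N : ℕ in (hyperfilter ℕ : Filter ℕ), 0 < N := by
    have h1 : (hyperfilter ℕ : Filter ℕ) ≤ atTop := by
      rw [← Nat.cofinite_eq_atTop]
      exact hyperfilter_le_cofinite
    exact h1 (eventually_gt_atTop 0)
  have hadd : ∀ f f' : Fn, I (f + f') = I f + I f' := by
    intro f f'
    refine tendsto_nhds_unique (hI (f + f')) (((hI f).add (hI f')).congr fun N => ?_)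
    simp only [a, Submodule.coe_add, Pi.add_apply, Finset.sum_add_distrib, add_div]
  have hsmul : ∀ (c : ℝ) (f : Fn), I (c • f) = c * I f := by
    intro c f
    refine tendsto_nhds_unique (hI (c • f)) (((hI f).const_mul c).congr fun N => ?_)
    simp only [a, Submodule.coe_smul, Pi.smul_apply, smul_eq_mul, ← Finset.mul_sum, mul_div_assoc]
  refine ⟨{ toFun := I, map_add' := hadd, map_smul' := fun c f => hsmul c f }, ?_, ?_⟩
  · intro f f' h
    change I f' = I f
    obtain ⟨C, hC⟩ := bdd f.1 f.2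
    have h0 : Tendsto (fun N : ℕ => a f'.1 N - a f.1 N) (hyperfilter ℕ) (𝓝 0) := by
      have h1 : Tendsto (fun N : ℕ => 2 * C / (N : ℝ)) (hyperfilter ℕ) (𝓝 0) := by
        have h2 : Tendsto (fun N : ℕ => 2 * C / (N : ℝ)) atTop (𝓝 0) :=
          tendsto_const_div_atTop_nhds_zero_nat _
        refine h2.mono_left ?_
        rw [← Nat.cofinite_eq_atTop]
        exact hyperfilter_le_cofinite
      refine squeeze_zero_norm' ?_ h1
      filter_upwards [hpos] with N hN
      have hN' : (0 : ℝ) < N := by exact_mod_cast hN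
      have h3 : a f'.1 N - a f.1 N = (f.1 (T^[N] x) - f.1 x) / N := by
        have h4 : (∑ j ∈ Finset.range N, f'.1 (T^[j] x)) =
            ∑ j ∈ Finset.range N, f.1 (T^[j + 1] x) := by
          refine Finset.sum_congr rfl fun j _ => ?_
          rw [h, Function.iterate_succ_apply']
        have h5 := Finset.sum_range_succ' (fun j => f.1 (T^[j] x)) N
        have h6 := Finset.sum_range_succ (fun j => f.1 (T^[j] x)) N
        have h7 : (∑ j ∈ Finset.range N, f'.1 (T^[j] x)) -
            (∑ j ∈ Finset.range N, f.1 (T^[j] x)) = f.1 (T^[N] x) - f.1 x := by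
          rw [h4]
          have h8 : f.1 (T^[0] x) = f.1 x := rfl
          rw [h8] at h5
          linarith
        simp only [a]
        rw [← sub_div, h7]
      rw [h3, Real.norm_eq_abs, abs_div, abs_of_pos hN']
      refine div_le_div_of_nonneg_right ?_ hN'.le
      calc |f.1 (T^[N] x) - f.1 x| ≤ |f.1 (T^[N] x)| + |f.1 x| := abs_sub _ _
        _ ≤ 2 * C := by linarith [hC (T^[N] x), hC x]
    have h9 := tendsto_nhds_unique h0 ((hI f').sub (hI f))
    linarith
  · intro f C h
    change I f ≤ C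
    refine le_of_tendsto (hI f) ?_
    filter_upwards [hpos] with N hN
    exact ha_le f.1 C h N hN

end Pool.Agent.H83.HP
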