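import Pool.Agent.H83.HP.Forms
import Pool.Agent.H83.HP.Mean
import Pool.Agent.H83.HN.Para

/-!
# The Lelong numbers of the limit class of a parabolic automorphism are zero

`g` is an automorphism with `g^* A = A + f b + c L`, `g^* b = b + e L`, `g^* L = L`, `c > 0`,
`e f = 2 c`.  Then `(g^k)^* w = w + k f frm b + k^2 c frm L + ddc V_k` for a Kaehler form `w` in the
class `A`, where `V_(k+1) = v + k f w' + k^2 c u + V_k o g`.  As the mean value of `u` is zero,
`V_k ≤ C k^2`.  The value of an invariant mean on `V_k` is `c k^3/3` times its value on `u`, plus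
`O(k^2)`; the same holds for the inverse of `g`, so every invariant mean vanishes on `u` and is at
least `- C k^2` on `V_k`.  Hence `V_k / k^2` cannot tend to `-∞` uniformly on an orbit, as it
would on an orbit of points with positive Lelong number.
-/

namespace Pool.Agent.H83.HP

open Pool.Agent.H83.HN
open Filter Topology

variable {n : ℕ} {Lam : Type} [AddCommGroup Lam] {q : Lam → Lam → ℤ} {M : Manifold n Lam q}

namespace Forms

variable (F : Forms M)

/-- composition with an automorphism -/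
def comp (g : M.Aut) (f : F.Fn) : F.Fn := ⟨fun y => f.1 (g • y), F.comp_mem g f.1 f.2⟩

theorem frm_zsmul (k : ℤ) {x : Lam} (hx : x ∈ M.NS) : F.frm (k • x) = (k : ℝ) • F.frm x := by
  let φ : M.NS →+ F.Om := AddMonoidHom.mk' (fun x => F.frm x.1)
    (fun x y => F.frm_add x.1 x.2 y.1 y.2)
  have h := map_zsmul φ k ⟨x, hx⟩
  change F.frm (k • x) = k • F.frm x at h
  rw [h, Int.cast_smul_eq_zsmul]

/-- The potentials `V_k`. -/
noncomputable def V (g : M.Aut) (f c : ℝ) (u v w : F.Fn) : ℕ → F.Fn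
  | 0 => 0
  | k + 1 => v + ((k : ℝ) * f) • w + ((k : ℝ) ^ 2 * c) • u + F.comp g (V g f c u v w k)

/-- the forms `(g^k)^* om` -/
theorem star_iter (g : M.Aut) (f e c : ℝ) (hef : e * f = 2 * c) (om be th : F.Om) (u v w : F.Fn)
    (hom : F.star g om = om + f • be + c • th + F.ddc v)
    (hbe : F.star g be = be + e • th + F.ddc w) (hth : F.star g th = th + F.ddc u) (k : ℕ) :
    (F.star g)^[k] om = om + ((k : ℝ) * f) • be + ((k : ℝ) ^ 2 * c) • th +
      F.ddc (F.V g f c u v w k) := by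
  induction k with
  | zero => simp [V]
  | succ k ih =>
    rw [Function.iterate_succ_apply', ih]
    simp only [map_add, map_smul, hom, hbe, hth, V]
    have h1 : F.star g (F.ddc (F.V g f c u v w k)) = F.ddc (F.comp g (F.V g f c u v w k)) :=
      F.star_ddc g _
    rw [h1]
    have h2 : ((k : ℝ) * f) • (be + e • th + F.ddc w) =
        ((k : ℝ) * f) • be + ((k : ℝ) * (2 * c)) • th + ((k : ℝ) * f) • F.ddc w := by
      rw [smul_add, smul_add, smul_smul, mul_assoc, mul_comm f e, hef]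
    rw [h2]
    push_cast
    module

/-- the values of an invariant functional on the `V_k` -/
theorem fun_V (g : M.Aut) (f c : ℝ) (u v w : F.Fn) (J : F.Fn →ₗ[ℝ] ℝ)
    (hJ : ∀ f, J (F.comp g f) = J f) (k : ℕ) :
    J (F.V g f c u v w k) = k * J v + f * (k * (k - 1) / 2) * J w +
      c * ((k - 1) * k * (2 * k - 1) / 6) * J u := by
  induction k with
  | zero => simp [V]
  | succ k ih =>
    simp only [V, map_add, map_smul, hJ, smul_eq_mul, ih]
    push_cast
    ring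

theorem star_iter_pos (g : M.Aut) (om : F.Om) (hom : om ∈ F.Pos) (k : ℕ) :
    (F.star g)^[k] om ∈ F.Pos := by
  induction k with
  | zero => exact hom
  | succ k ih =>
    rw [Function.iterate_succ_apply']
    exact F.star_pos g _ ih

/-- the upper bound for `V_k` -/
theorem V_le (g : M.Aut) (f e c : ℝ) (hef : e * f = 2 * c) (om be th : F.Om) (hk : om ∈ F.Kah)
    (u v w : F.Fn) (hom : F.star g om = om + f • be + c • th + F.ddc v)
    (hbe : F.star g be = be + e • th + F.ddc w) (hth : F.star g th = th + F.ddc u)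
    (hu : F.mean u = 0) :
    ∃ C : ℝ, ∀ k : ℕ, 1 ≤ k → ∀ y, (F.V g f c u v w k).1 y ≤ C * (k : ℝ) ^ 2 := by
  obtain ⟨Cb, hCb⟩ := F.kah_dom om hk (f • be)
  obtain ⟨Ct, hCt⟩ := F.kah_dom om hk (c • th)
  obtain ⟨C', hC'⟩ := F.sup_mean om hk
  obtain ⟨C2, hC2⟩ : ∃ C2 : ℝ, C2 = 1 + |Cb| + |Ct| := ⟨_, rfl⟩
  have hC2pos : 0 < C2 := by rw [hC2]; positivity
  refine ⟨|F.mean v| + |f| * |F.mean w| + C2 * |C'|, fun k hk1 y => ?_⟩
  have hk' : (1 : ℝ) ≤ k := by exact_mod_cast hk1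
  have hkk : (k : ℝ) ≤ (k : ℝ) ^ 2 := by nlinarith
  -- positivity
  have h1 : (C2 * (k : ℝ) ^ 2) • om + F.ddc (F.V g f c u v w k) ∈ F.Pos := by
    have h2 := F.star_iter_pos g om (F.kah_pos hk) k
    rw [F.star_iter g f e c hef om be th u v w hom hbe hth k] at h2
    have h3 := F.pos_smul k (Nat.cast_nonneg k) _ hCb
    have h4 := F.pos_smul ((k : ℝ) ^ 2) (by positivity) _ hCt
    have h5 : 0 ≤ C2 * (k : ℝ) ^ 2 - 1 - k * Cb - (k : ℝ) ^ 2 * Ct := by
      have h6 : k * Cb ≤ (k : ℝ) ^ 2 * |Cb| := by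
        calc k * Cb ≤ k * |Cb| := mul_le_mul_of_nonneg_left (le_abs_self _) (Nat.cast_nonneg k)
          _ ≤ (k : ℝ) ^ 2 * |Cb| := mul_le_mul_of_nonneg_right hkk (abs_nonneg _)
      have h7 : (k : ℝ) ^ 2 * Ct ≤ (k : ℝ) ^ 2 * |Ct| :=
        mul_le_mul_of_nonneg_left (le_abs_self _) (by positivity)
      rw [hC2]
      nlinarith
    have h6 := F.pos_smul _ h5 _ (F.kah_pos hk)
    have h7 := F.pos_add _ (F.pos_add _ (F.pos_add _ h2 _ h3) _ h4) _ h6
    have h8 : om + ((k : ℝ) * f) • be + ((k : ℝ) ^ 2 * c) • th + F.ddc (F.V g f c u v w k) +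
        (k : ℝ) • (Cb • om - f • be) + ((k : ℝ) ^ 2) • (Ct • om - c • th) +
        (C2 * (k : ℝ) ^ 2 - 1 - k * Cb - (k : ℝ) ^ 2 * Ct) • om =
        (C2 * (k : ℝ) ^ 2) • om + F.ddc (F.V g f c u v w k) := by
      module
    rwa [h8] at h7
  have hpos : 0 < C2 * (k : ℝ) ^ 2 := by positivity
  have h2 := F.pos_smul (C2 * (k : ℝ) ^ 2)⁻¹ (inv_nonneg.2 hpos.le) _ h1
  rw [smul_add, smul_smul, inv_mul_cancel₀ hpos.ne', one_smul, ← map_smul] at h2
  have h3 := hC' _ h2 y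
  rw [map_smul, smul_eq_mul] at h3
  have h4 : (((C2 * (k : ℝ) ^ 2)⁻¹ • F.V g f c u v w k : F.Fn)).1 y =
      (C2 * (k : ℝ) ^ 2)⁻¹ * (F.V g f c u v w k).1 y := rfl
  rw [h4, inv_mul_le_iff₀ hpos, mul_add, ← mul_assoc, mul_inv_cancel₀ hpos.ne', one_mul] at h3
  have h5 := F.fun_V g f c u v w F.mean (F.mean_comp g) k
  rw [hu, mul_zero, add_zero] at h5
  rw [h5] at h3
  have h6 : (k : ℝ) * F.mean v ≤ (k : ℝ) ^ 2 * |F.mean v| := by
    calc (k : ℝ) * F.mean v ≤ k * |F.mean v| :=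
          mul_le_mul_of_nonneg_left (le_abs_self _) (Nat.cast_nonneg k)
      _ ≤ (k : ℝ) ^ 2 * |F.mean v| := mul_le_mul_of_nonneg_right hkk (abs_nonneg _)
  have h7 : f * (k * (k - 1) / 2) * F.mean w ≤ (k : ℝ) ^ 2 * (|f| * |F.mean w|) := by
    have h8 : f * F.mean w ≤ |f| * |F.mean w| := by
      rw [← abs_mul]; exact le_abs_self _
    have h9 : 0 ≤ (k : ℝ) * (k - 1) / 2 := by
      have : 0 ≤ (k : ℝ) - 1 := by linarith
      positivity
    calc f * (k * (k - 1) / 2) * F.mean w = (k * (k - 1) / 2) * (f * F.mean w) := by ring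
      _ ≤ (k * (k - 1) / 2) * (|f| * |F.mean w|) := mul_le_mul_of_nonneg_left h8 h9
      _ ≤ (k : ℝ) ^ 2 * (|f| * |F.mean w|) := by
        refine mul_le_mul_of_nonneg_right ?_ (by positivity)
        nlinarith
  have h8 : C2 * (k : ℝ) ^ 2 * C' ≤ C2 * (k : ℝ) ^ 2 * |C'| :=
    mul_le_mul_of_nonneg_left (le_abs_self _) hpos.le
  nlinarith

/-- an invariant mean of `u` is not positive -/
theorem mean_u_le (g : M.Aut) (f c C : ℝ) (hc : 0 < c) (u v w : F.Fn)
    (hV : ∀ k : ℕ, 1 ≤ k → ∀ y, (F.V g f c u v w k).1 y ≤ C * (k : ℝ) ^ 2)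
    (J : F.Fn →ₗ[ℝ] ℝ) (hJ : ∀ f, J (F.comp g f) = J f)
    (hle : ∀ (f : F.Fn) (B : ℝ), (∀ y, f.1 y ≤ B) → J f ≤ B) : J u ≤ 0 := by
  by_contra hcon
  push Not at hcon
  obtain ⟨K, hK⟩ : ∃ K : ℝ, K = C + |J v| + |f| * |J w| := ⟨_, rfl⟩
  obtain ⟨k, hk⟩ := exists_nat_gt (max 2 (12 * K / (c * J u)))
  have hk2 : (2 : ℝ) < k := (le_max_left _ _).trans_lt hk
  have hk3 : 12 * K / (c * J u) < k := (le_max_right _ _).trans_lt hk
  have hk1 : 1 ≤ k := by
    have : (1 : ℝ) < k := by linarith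
    exact_mod_cast this.le
  have h1 := hle _ _ (hV k hk1)
  rw [F.fun_V g f c u v w J hJ k] at h1
  have hcu : 0 < c * J u := mul_pos hc hcon
  rw [div_lt_iff₀ hcu] at hk3
  have hk0 : (0 : ℝ) < k := by linarith
  have h2 : -((k : ℝ) ^ 2 * |J v|) ≤ k * J v := by
    have h3 : -(k * |J v|) ≤ k * J v := by
      have := neg_abs_le (J v)
      nlinarith
    have h4 : (k : ℝ) * |J v| ≤ (k : ℝ) ^ 2 * |J v| :=
      mul_le_mul_of_nonneg_right (by nlinarith) (abs_nonneg _)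
    linarith
  have h3 : -((k : ℝ) ^ 2 * (|f| * |J w|)) ≤ f * (k * (k - 1) / 2) * J w := by
    have h4 : -(|f| * |J w|) ≤ f * J w := by
      rw [← abs_mul]; exact neg_abs_le _
    have h5 : 0 ≤ (k : ℝ) * (k - 1) / 2 := by
      have : 0 ≤ (k : ℝ) - 1 := by linarith
      positivity
    have h6 : (k * (k - 1) / 2) * (-(|f| * |J w|)) ≤ (k * (k - 1) / 2) * (f * J w) :=
      mul_le_mul_of_nonneg_left h4 h5
    have h7 : (k * (k - 1) / 2) * (|f| * |J w|) ≤ (k : ℝ) ^ 2 * (|f| * |J w|) :=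
      mul_le_mul_of_nonneg_right (by nlinarith) (by positivity)
    nlinarith
  have h4 : (k : ℝ) ^ 3 / 12 ≤ (k - 1) * k * (2 * k - 1) / 6 := by nlinarith
  have h5 : c * ((k : ℝ) ^ 3 / 12) * J u ≤ c * ((k - 1) * k * (2 * k - 1) / 6) * J u :=
    mul_le_mul_of_nonneg_right (mul_le_mul_of_nonneg_left h4 hc.le) hcon.le
  have h6 : (k : ℝ) ^ 2 * (c * J u * k) ≤ (k : ℝ) ^ 2 * (12 * K) := by
    rw [hK]
    nlinarith
  have h7 := le_of_mul_le_mul_left h6 (by positivity)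
  linarith

/-- an invariant mean which is zero on `u` is bounded below on `V_k / k^2` -/
theorem le_mean_V (g : M.Aut) (f c : ℝ) (u v w : F.Fn)
    (J : F.Fn →ₗ[ℝ] ℝ) (hJ : ∀ f, J (F.comp g f) = J f) (hu : J u = 0) (k : ℕ) (hk1 : 1 ≤ k) :
    -(|J v| + |f| * |J w|) * (k : ℝ) ^ 2 ≤ J (F.V g f c u v w k) := by
  rw [F.fun_V g f c u v w J hJ k, hu, mul_zero, add_zero]
  have hk : (1 : ℝ) ≤ k := by exact_mod_cast hk1
  have h2 : -((k : ℝ) ^ 2 * |J v|) ≤ k * J v := by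
    have h3 : -(k * |J v|) ≤ k * J v := by
      have := neg_abs_le (J v)
      nlinarith
    have h4 : (k : ℝ) * |J v| ≤ (k : ℝ) ^ 2 * |J v| :=
      mul_le_mul_of_nonneg_right (by nlinarith) (abs_nonneg _)
    linarith
  have h3 : -((k : ℝ) ^ 2 * (|f| * |J w|)) ≤ f * (k * (k - 1) / 2) * J w := by
    have h4 : -(|f| * |J w|) ≤ f * J w := by
      rw [← abs_mul]; exact neg_abs_le _
    have h5 : 0 ≤ (k : ℝ) * (k - 1) / 2 := by
      have : 0 ≤ (k : ℝ) - 1 := by linarith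
      positivity
    have h6 : (k * (k - 1) / 2) * (-(|f| * |J w|)) ≤ (k * (k - 1) / 2) * (f * J w) :=
      mul_le_mul_of_nonneg_left h4 h5
    have h7 : (k * (k - 1) / 2) * (|f| * |J w|) ≤ (k : ℝ) ^ 2 * (|f| * |J w|) :=
      mul_le_mul_of_nonneg_right (by nlinarith) (by positivity)
    nlinarith
  linarith

/-- the potentials for an automorphism acting by a transvection -/
theorem exists_pot (g : M.Aut) {A b L : Lam} (hA : A ∈ M.NS) (hb : b ∈ M.NS) (hL : L ∈ M.NS)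
    (f e c : ℤ) (h1 : M.pull g A = A + f • b + c • L) (h2 : M.pull g b = b + e • L)
    (h3 : M.pull g L = L) (a : F.Fn) :
    ∃ u v w : F.Fn, F.star g (F.frm A + F.ddc a) =
        (F.frm A + F.ddc a) + (f : ℝ) • F.frm b + (c : ℝ) • F.frm L + F.ddc v ∧
      F.star g (F.frm b) = F.frm b + (e : ℝ) • F.frm L + F.ddc w ∧
      F.star g (F.frm L) = F.frm L + F.ddc u ∧ F.mean u = 0 := by
  obtain ⟨v0, hv0⟩ := F.frm_pull g A hA
  obtain ⟨w, hw⟩ := F.frm_pull g b hb
  obtain ⟨u0, hu0⟩ := F.frm_pull g L hL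
  have hfb := M.NS.zsmul_mem hb f
  have hcL := M.NS.zsmul_mem hL c
  have heL := M.NS.zsmul_mem hL e
  rw [h1, F.frm_add _ (M.NS.add_mem hA hfb) _ hcL, F.frm_add _ hA _ hfb, F.frm_zsmul f hb,
    F.frm_zsmul c hL] at hv0
  rw [h2, F.frm_add _ hb _ heL, F.frm_zsmul e hL] at hw
  rw [h3] at hu0
  obtain ⟨one, hone⟩ : ∃ one : F.Fn, one = ⟨fun _ => 1, F.one_mem⟩ := ⟨_, rfl⟩
  have hd1 : F.ddc one = 0 := (F.ddc_ker one).2 ⟨1, fun y => by rw [hone]⟩
  refine ⟨u0 - F.mean u0 • one, v0 + F.comp g a - a, w, ?_, hw, ?_, ?_⟩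
  · have h4 : F.star g (F.ddc a) = F.ddc (F.comp g a) := F.star_ddc g a
    rw [map_add, hv0, h4, map_sub, map_add]
    abel
  · rw [map_sub, map_smul, hd1, smul_zero, sub_zero]
    exact hu0
  · rw [map_sub, map_smul, smul_eq_mul]
    have h5 : F.mean one = 1 := by rw [hone]; exact F.mean_one
    rw [h5, mul_one, sub_self]

/-- THE LELONG NUMBERS of the limit class of a parabolic automorphism are zero. -/
theorem lel_eq_zero (g : M.Aut) {A b L : Lam} (hA : A ∈ M.Ample) (hb : b ∈ M.NS) (hL : L ∈ M.Nef)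
    (f e c : ℤ) (hc : 0 < c) (hef : e * f = 2 * c) (h1 : M.pull g A = A + f • b + c • L)
    (h2 : M.pull g b = b + e • L) (h3 : M.pull g L = L) (x : M.P) : F.lel L x = 0 := by
  classical
  have hAN := M.nef_NS (M.ample_nef hA)
  have hLN := M.nef_NS hL
  -- the inverse
  have hinv : ∀ z, M.pull g⁻¹ (M.pull g z) = z := by
    intro z
    have h4 := M.pull_mul g g⁻¹
    rw [mul_inv_cancel, M.pull_one] at h4
    exact (DFunLike.congr_fun h4 z).symm
  have h3' : M.pull g⁻¹ L = L := by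
    have := hinv L
    rwa [h3] at this
  have h2' : M.pull g⁻¹ b = b + (-e) • L := by
    have := hinv b
    rw [h2, map_add, map_zsmul, h3'] at this
    rw [neg_smul, ← sub_eq_add_neg, eq_sub_iff_add_eq, this]
  have h1' : M.pull g⁻¹ A = A + (-f) • b + c • L := by
    have h4 := hinv A
    rw [h1, map_add, map_add, map_zsmul, map_zsmul, h3', h2'] at h4
    have h5 : M.pull g⁻¹ A = A - f • (b + (-e) • L) - c • L := by
      rw [eq_sub_iff_add_eq, eq_sub_iff_add_eq, add_right_comm]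
      exact h4
    rw [h5]
    have h6 : (f * e) • L = (2 * c) • L := by rw [mul_comm f e, hef]
    have h7 : A - f • (b + (-e) • L) - c • L = A + (-f) • b + ((f * e) • L - c • L) := by module
    rw [h7, h6]
    module
  obtain ⟨a, ha⟩ := F.frm_ample A hA
  obtain ⟨u, v, w, hom, hbe, hth, hu⟩ := F.exists_pot g hAN hb hLN f e c h1 h2 h3 a
  obtain ⟨u', v', w', hom', hbe', hth', hu'⟩ :=
    F.exists_pot g⁻¹ hAN hb hLN (-f) (-e) c h1' h2' h3' a
  obtain ⟨om, hOm⟩ : ∃ om, om = F.frm A + F.ddc a := ⟨_, rfl⟩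
  rw [← hOm] at ha hom hom'
  have hcr : (0 : ℝ) < c := by exact_mod_cast hc
  have hefr : (e : ℝ) * f = 2 * c := by exact_mod_cast hef
  obtain ⟨C, hC⟩ := F.V_le g f e c hefr om _ _ ha u v w hom hbe hth hu
  obtain ⟨C', hC'⟩ := F.V_le g⁻¹ ((-f : ℤ) : ℝ) ((-e : ℤ) : ℝ) c (by push_cast; linarith) om _ _ ha
    u' v' w' hom' hbe' hth' hu'
  by_contra hne
  have hpos : 0 < F.lel L x := lt_of_le_of_ne (F.lel_nonneg L x) (Ne.symm hne)
  -- the mean
  obtain ⟨J, hJ1, hJ2⟩ := exists_mean (fun y : M.P => g • y) x F.Fn F.bdd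
  have hJ : ∀ f, J (F.comp g f) = J f := fun f => hJ1 f (F.comp g f) fun y => rfl
  have hJ' : ∀ f, J (F.comp g⁻¹ f) = J f := by
    intro f
    have h4 := hJ (F.comp g⁻¹ f)
    have h5 : F.comp g (F.comp g⁻¹ f) = f := by
      apply Subtype.ext
      funext y
      change f.1 (g⁻¹ • g • y) = f.1 y
      rw [inv_smul_smul]
    rw [h5] at h4
    exact h4.symm
  have hle : ∀ (f : F.Fn) (B : ℝ), (∀ y, f.1 y ≤ B) → J f ≤ B := fun f B h => hJ2 f B fun j => h _
  -- the mean of `u` is zero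
  have hrel : J u' = - J u := by
    have h4 : F.star g (F.star g⁻¹ (F.frm L)) = F.frm L := by
      rw [← F.star_mul, inv_mul_cancel, F.star_one]
    rw [hth', map_add, hth] at h4
    have h5 : F.star g (F.ddc u') = F.ddc (F.comp g u') := F.star_ddc g u'
    rw [h5, add_assoc, add_eq_left, ← map_add] at h4
    obtain ⟨c0, hc0⟩ := (F.ddc_ker _).1 h4
    have h6 : u + F.comp g u' = c0 • ⟨fun _ => 1, F.one_mem⟩ := by
      apply Subtype.ext
      funext y
      rw [hc0 y]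
      change c0 = c0 * 1
      rw [mul_one]
    have h7 : F.mean (F.comp g u') = F.mean u' := F.mean_comp g u'
    have h8 : F.mean u + F.mean (F.comp g u') = c0 := by
      rw [← map_add, h6, map_smul, F.mean_one, smul_eq_mul, mul_one]
    rw [h7, hu, hu', add_zero] at h8
    rw [← h8, zero_smul] at h6
    have h9 : J u + J (F.comp g u') = 0 := by rw [← map_add, h6, map_zero]
    rw [hJ] at h9
    linarith
  have hu1 := F.mean_u_le g f c C hcr u v w hC J hJ hle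
  have hu2 := F.mean_u_le g⁻¹ ((-f : ℤ) : ℝ) c C' hcr u' v' w' hC' J hJ' hle
  have hJu : J u = 0 := by linarith
  -- Hartogs
  obtain ⟨Cb, hCb⟩ := F.kah_dom om ha ((f : ℝ) • F.frm b)
  obtain ⟨D, hD⟩ : ∃ D : ℝ, D = (1 + |Cb|) / c := ⟨_, rfl⟩
  obtain ⟨k, hk⟩ := F.hartogs L hL om ha
    (fun k => ((c : ℝ) * ((k : ℝ) + 1) ^ 2)⁻¹ • F.V g f c u v w (k + 1))
    (fun k => D / ((k : ℝ) + 1))
    (by
      have h4 : Tendsto (fun k : ℕ => D / ((k : ℝ) + 1)) atTop (𝓝 0) := by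
        have h5 := (tendsto_one_div_add_atTop_nhds_zero_nat (𝕜 := ℝ)).const_mul D
        rw [mul_zero] at h5
        refine h5.congr fun k => ?_
        rw [mul_one_div]
      exact h4)
    (by
      intro k
      obtain ⟨K, hK⟩ : ∃ K : ℝ, K = (k : ℝ) + 1 := ⟨_, rfl⟩
      have hK1 : 1 ≤ K := by
        rw [hK]
        have : (0 : ℝ) ≤ k := Nat.cast_nonneg k
        linarith
      have hK' : ((k + 1 : ℕ) : ℝ) = K := by rw [hK]; push_cast; rfl
      have h4 := F.star_iter_pos g om (F.kah_pos ha) (k + 1)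
      rw [F.star_iter g f e c hefr om _ _ u v w hom hbe hth (k + 1), hK'] at h4
      have hcK : 0 < (c : ℝ) * K ^ 2 := by positivity
      have h5 := F.pos_smul ((c : ℝ) * K ^ 2)⁻¹ (inv_nonneg.2 hcK.le) _ h4
      have h6 := F.pos_smul ((c : ℝ) * K)⁻¹ (inv_nonneg.2 (by positivity)) _ hCb
      have h7 : 0 ≤ D / K - ((c : ℝ) * K ^ 2)⁻¹ - ((c : ℝ) * K)⁻¹ * Cb := by
        have h8 : D / K - ((c : ℝ) * K ^ 2)⁻¹ - ((c : ℝ) * K)⁻¹ * Cb =
            ((c : ℝ) * K ^ 2)⁻¹ * ((K - 1) + K * (|Cb| - Cb)) := by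
          rw [hD]
          field_simp
          ring
        rw [h8]
        have h9 : 0 ≤ |Cb| - Cb := sub_nonneg.2 (le_abs_self _)
        have h10 : 0 ≤ K - 1 := by linarith
        positivity
      have h8 := F.pos_smul _ h7 _ (F.kah_pos ha)
      have h9 := F.pos_add _ (F.pos_add _ h5 _ h6) _ h8
      rw [← hK, map_smul]
      have h10 : ((c : ℝ) * K ^ 2)⁻¹ • (om + (K * f) • F.frm b + (K ^ 2 * c) • F.frm L +
          F.ddc (F.V g f c u v w (k + 1))) +
          ((c : ℝ) * K)⁻¹ • (Cb • om - (f : ℝ) • F.frm b) +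
          (D / K - ((c : ℝ) * K ^ 2)⁻¹ - ((c : ℝ) * K)⁻¹ * Cb) • om =
          F.frm L + (D / K) • om +
            ((c : ℝ) * K ^ 2)⁻¹ • F.ddc (F.V g f c u v w (k + 1)) := by
        have h11 : ((c : ℝ) * K ^ 2)⁻¹ * (K * f) = ((c : ℝ) * K)⁻¹ * f := by
          field_simp
        have h12 : ((c : ℝ) * K ^ 2)⁻¹ * (K ^ 2 * c) = 1 := by
          field_simp
        rw [smul_add, smul_add, smul_add, smul_smul, smul_smul, h11, h12, one_smul]
        module
      rwa [h10] at h9)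
    (by
      refine ⟨C / c, fun k y => ?_⟩
      have h4 := hC (k + 1) (by omega) y
      have h5 : ((((c : ℝ) * ((k : ℝ) + 1) ^ 2)⁻¹ • F.V g f c u v w (k + 1) : F.Fn)).1 y =
          ((c : ℝ) * ((k : ℝ) + 1) ^ 2)⁻¹ * (F.V g f c u v w (k + 1)).1 y := rfl
      rw [h5, inv_mul_le_iff₀ (by positivity)]
      push_cast at h4
      refine h4.trans (le_of_eq ?_)
      field_simp)
    (by
      refine ⟨-(|F.mean v| + |(f : ℝ)| * |F.mean w|) / c, fun k => ?_⟩
      have h4 := F.le_mean_V g f c u v w F.mean (F.mean_comp g) hu (k + 1) (by omega)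
      push_cast at h4
      rw [map_smul, smul_eq_mul, div_le_iff₀ hcr, mul_comm _ (c : ℝ), ← mul_assoc]
      have h5 : (c : ℝ) * ((c : ℝ) * ((k : ℝ) + 1) ^ 2)⁻¹ = (((k : ℝ) + 1) ^ 2)⁻¹ := by
        field_simp
      rw [h5, le_inv_mul_iff₀ (by positivity), mul_comm]
      exact h4)
    (F.lel L x) hpos (-(|J v| + |(f : ℝ)| * |J w|) / c - 1)
  have horb : ∀ j : ℕ, F.lel L ((fun y : M.P => g • y)^[j] x) = F.lel L x := by
    intro j
    induction j with
    | zero => rfl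
    | succ j ih =>
      rw [Function.iterate_succ_apply', F.lel_inv g L hL h3, ih]
  have h4 := hJ2 _ _ (fun j => hk _ (horb j).ge)
  have h5 := F.le_mean_V g f c u v w J hJ hJu (k + 1) (by omega)
  push_cast at h5
  rw [map_smul, smul_eq_mul, inv_mul_le_iff₀ (by positivity)] at h4
  have h6 : (c : ℝ) * ((k : ℝ) + 1) ^ 2 * (-(|J v| + |(f : ℝ)| * |J w|) / c - 1) =
      -(|J v| + |(f : ℝ)| * |J w|) * ((k : ℝ) + 1) ^ 2 - c * ((k : ℝ) + 1) ^ 2 := by
    field_simp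
  rw [h6] at h4
  have h7 : 0 < (c : ℝ) * ((k : ℝ) + 1) ^ 2 := by positivity
  linarith

end Forms

end Pool.Agent.H83.HP
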