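import Pool.Agent.H83.HN.Iface

/-!
# Closed forms and quasi-plurisubharmonic functions on a projective hyperkaehler manifold

`P` is the set of points of the manifold `Y`; smooth functions are real functions on `P`.
-/

namespace Pool.Agent.H83.HP

open Pool.Agent.H83.HN
open Filter Topology

variable {n : ℕ} {Lam : Type} [AddCommGroup Lam] {q : Lam → Lam → ℤ}

/-- SMOOTH FUNCTIONS AND CLOSED `(1,1)`-FORMS on `Y`. -/
structure FormsData (M : Manifold n Lam q) where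
  /-- the smooth real functions (`Y` is compact). -/
  fn : Set (M.P → ℝ)
  fn_add : ∀ f ∈ fn, ∀ f' ∈ fn, (fun y => f y + f' y) ∈ fn
  fn_smul : ∀ t : ℝ, ∀ f ∈ fn, (fun y => t * f y) ∈ fn
  fn_one : (fun _ => 1) ∈ fn
  fn_bdd : ∀ f ∈ fn, ∃ C : ℝ, ∀ y, |f y| ≤ C
  fn_comp : ∀ g : M.Aut, ∀ f ∈ fn, (fun y => f (g • y)) ∈ fn
  /-- the smooth closed real forms of type `(1,1)`, the semipositive and the Kaehler forms. -/
  Om : Type
  [grp : AddCommGroup Om]
  [mod : Module ℝ Om]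
  Pos : Set Om
  Kah : Set Om
  pos_add : ∀ w ∈ Pos, ∀ w' ∈ Pos, w + w' ∈ Pos
  pos_smul : ∀ t : ℝ, 0 ≤ t → ∀ w ∈ Pos, t • w ∈ Pos
  kah_pos : Kah ⊆ Pos
  kah_dom : ∀ w ∈ Kah, ∀ w' : Om, ∃ C : ℝ, C • w - w' ∈ Pos
  /-- the operator `i d dbar` on smooth functions; its kernel consists of the constants. -/
  dd : (M.P → ℝ) → Om
  dd_add : ∀ f ∈ fn, ∀ f' ∈ fn, dd (fun y => f y + f' y) = dd f + dd f'
  dd_smul : ∀ t : ℝ, ∀ f ∈ fn, dd (fun y => t * f y) = t • dd f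
  dd_ker : ∀ f ∈ fn, dd f = 0 ↔ ∃ c : ℝ, ∀ y, f y = c
  /-- inverse image of forms under automorphisms. -/
  star : M.Aut → Om →ₗ[ℝ] Om
  star_one : ∀ w, star 1 w = w
  star_mul : ∀ g h, ∀ w, star (g * h) w = star h (star g w)
  star_pos : ∀ g, ∀ w ∈ Pos, star g w ∈ Pos
  star_dd : ∀ g, ∀ f ∈ fn, star g (dd f) = dd fun y => f (g • y)
  /-- `frm x`: a form in the class `x` (chosen for a basis of `NS`, extended additively);
  forms in the same class differ by some `dd f`. -/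
  frm : Lam → Om
  frm_add : ∀ x ∈ M.NS, ∀ y ∈ M.NS, frm (x + y) = frm x + frm y
  frm_star : ∀ g, ∀ x ∈ M.NS, ∃ f ∈ fn, star g (frm x) = frm (M.pull g x) + dd f
  frm_kah : ∀ x ∈ M.Ample, ∃ f ∈ fn, frm x + dd f ∈ Kah

attribute [instance] FormsData.grp FormsData.mod

/-- MEAN VALUES, LELONG NUMBERS and two compactness theorems. -/
structure Forms (M : Manifold n Lam q) extends FormsData M where
  /-- the mean value for the volume form defined by the symplectic form `σ`, which is invariant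
  under all automorphisms. -/
  av : (M.P → ℝ) → ℝ
  av_add : ∀ f ∈ fn, ∀ f' ∈ fn, av (fun y => f y + f' y) = av f + av f'
  av_smul : ∀ t : ℝ, ∀ f ∈ fn, av (fun y => t * f y) = t * av f
  av_one : av (fun _ => 1) = 1
  av_comp : ∀ g : M.Aut, ∀ f ∈ fn, av (fun y => f (g • y)) = av f
  /-- the supremum of a function `f` with `w + dd f ≥ 0` exceeds its mean value by a bounded
  amount (compactness of the set of the quasi-plurisubharmonic functions with supremum `0`). -/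
  sup_av : ∀ w ∈ Kah, ∃ C : ℝ, ∀ f ∈ fn, w + dd f ∈ Pos → ∀ y, f y ≤ av f + C
  /-- `lel x y`: the LELONG NUMBER at the point `y` of the closed positive current with minimal
  singularities in the nef class `x`. -/
  lel : Lam → M.P → ℝ
  lel_nonneg : ∀ x y, 0 ≤ lel x y
  lel_inv : ∀ g, ∀ x ∈ M.Nef, M.pull g x = x → ∀ y, lel x (g • y) = lel x y
  /-- COMPACTNESS AND HARTOGS' LEMMA. If `frm x + eps_k w + dd f_k ≥ 0`, `eps_k → 0`, the functions
  `f_k` are bounded above and have mean values bounded below, then a subsequence converges to the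
  potential of a closed positive current in the class `x`, which is at most the potential with
  minimal singularities plus a constant, so it is `-∞` on the compact set `lel x ≥ c`; so the
  suprema of the `f_k` of the subsequence on this set tend to `-∞`. -/
  compact : ∀ x ∈ M.Nef, ∀ w ∈ Kah, ∀ (f : ℕ → M.P → ℝ) (eps : ℕ → ℝ), (∀ k, f k ∈ fn) →
    Tendsto eps atTop (𝓝 0) → (∀ k, frm x + eps k • w + dd (f k) ∈ Pos) →
    (∃ C : ℝ, ∀ k y, f k y ≤ C) → (∃ C : ℝ, ∀ k, C ≤ av (f k)) →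
    ∀ c : ℝ, 0 < c → ∀ B : ℝ, ∃ k, ∀ y, c ≤ lel x y → f k y ≤ B

/-! ## The space of smooth functions and the linear maps -/

namespace FormsData

variable {M : Manifold n Lam q} (F : FormsData M)

/-- the vector space of smooth functions -/
def Fn : Submodule ℝ (M.P → ℝ) where
  carrier := F.fn
  add_mem' {f f'} hf hf' := F.fn_add f hf f' hf'
  zero_mem' := by
    have h := F.fn_smul 0 _ F.fn_one
    have e : (fun y : M.P => (0 : ℝ) * (fun _ => (1 : ℝ)) y) = 0 := by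
      funext y
      simp
    rwa [e] at h
  smul_mem' t f hf := F.fn_smul t f hf

theorem bdd : ∀ f ∈ F.Fn, ∃ C : ℝ, ∀ y, |f y| ≤ C := F.fn_bdd

theorem one_mem : (fun _ => 1) ∈ F.Fn := F.fn_one

theorem comp_mem : ∀ g : M.Aut, ∀ f ∈ F.Fn, (fun y => f (g • y)) ∈ F.Fn := F.fn_comp

/-- the linear operator `i d dbar` -/
def ddc : F.Fn →ₗ[ℝ] F.Om where
  toFun f := F.dd f.1
  map_add' f f' := F.dd_add f.1 f.2 f'.1 f'.2
  map_smul' t f := F.dd_smul t f.1 f.2

theorem ddc_ker : ∀ f : F.Fn, F.ddc f = 0 ↔ ∃ c : ℝ, ∀ y, f.1 y = c := fun f =>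
  F.dd_ker f.1 f.2

theorem star_ddc : ∀ g, ∀ f : F.Fn,
    F.star g (F.ddc f) = F.ddc ⟨fun y => f.1 (g • y), F.comp_mem g f.1 f.2⟩ := fun g f =>
  F.star_dd g f.1 f.2

theorem frm_pull : ∀ g, ∀ x ∈ M.NS, ∃ f : F.Fn,
    F.star g (F.frm x) = F.frm (M.pull g x) + F.ddc f := by
  intro g x hx
  obtain ⟨f, hf, h⟩ := F.frm_star g x hx
  exact ⟨⟨f, hf⟩, h⟩

theorem frm_ample : ∀ x ∈ M.Ample, ∃ f : F.Fn, F.frm x + F.ddc f ∈ F.Kah := by
  intro x hx
  obtain ⟨f, hf, h⟩ := F.frm_kah x hx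
  exact ⟨⟨f, hf⟩, h⟩

end FormsData

namespace Forms

variable {M : Manifold n Lam q} (F : Forms M)

/-- the mean value as a linear map -/
def mean : F.Fn →ₗ[ℝ] ℝ where
  toFun f := F.av f.1
  map_add' f f' := F.av_add f.1 f.2 f'.1 f'.2
  map_smul' t f := F.av_smul t f.1 f.2

theorem mean_one : F.mean ⟨fun _ => 1, F.one_mem⟩ = 1 := F.av_one

theorem mean_comp : ∀ g, ∀ f : F.Fn,
    F.mean ⟨fun y => f.1 (g • y), F.comp_mem g f.1 f.2⟩ = F.mean f := fun g f =>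
  F.av_comp g f.1 f.2

theorem sup_mean : ∀ w ∈ F.Kah, ∃ C : ℝ, ∀ f : F.Fn, w + F.ddc f ∈ F.Pos →
    ∀ y, f.1 y ≤ F.mean f + C := by
  intro w hw
  obtain ⟨C, hC⟩ := F.sup_av w hw
  exact ⟨C, fun f h => hC f.1 f.2 h⟩

theorem hartogs : ∀ x ∈ M.Nef, ∀ w ∈ F.Kah, ∀ (f : ℕ → F.Fn) (eps : ℕ → ℝ),
    Tendsto eps atTop (𝓝 0) → (∀ k, F.frm x + eps k • w + F.ddc (f k) ∈ F.Pos) →
    (∃ C : ℝ, ∀ k y, (f k).1 y ≤ C) → (∃ C : ℝ, ∀ k, C ≤ F.mean (f k)) → ∀ c : ℝ, 0 < c →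
    ∀ B : ℝ, ∃ k, ∀ y, c ≤ F.lel x y → (f k).1 y ≤ B := fun x hx w hw f eps he hp hb hm =>
  F.compact x hx w hw (fun k => (f k).1) eps (fun k => (f k).2) he hp hb hm

end Forms

end Pool.Agent.H83.HP
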