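import Pool.Agent.H83.HP.Lambda

/-!
# Zero Lelong numbers on a manifold with a parabolic group
-/

namespace Pool.Agent.H83.HP

open Pool.Agent.H83.HN

variable {n : ℕ} {Lam : Type} [AddCommGroup Lam] {q : Lam → Lam → ℤ} {M : Manifold n Lam q}
  {L A : Lam} {r : ℕ}

/-- If there is a parabolic group of positive rank, the Lelong numbers of the minimal current in the
class `L` are zero. -/
theorem Forms.lel_zero_of_para (F : Forms M) (q_symm : ∀ x y, q x y = q y x) (π : Para M L A r)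
    (hr : 1 ≤ r) (hA : A ∈ M.Ample) (hL : L ∈ M.Nef) (hLL : q L L = 0) (hLA : 0 < q L A)
    (x : M.P) : F.lel L x = 0 := by
  obtain ⟨e, he⟩ : ∃ e : Fin r → ℤ, e = fun _ => 1 := ⟨_, rfl⟩
  have he0 : e ≠ 0 := by
    intro h
    have := congrFun h ⟨0, hr⟩
    rw [he] at this
    simp at this
  have hb := π.b_neg e he0
  refine F.lel_eq_zero (π.rho e) hA (π.b_NS e) hL (2 * q L A) (-(2 * q (π.b e) (π.b e)))
    (-(2 * q (π.b e) (π.b e) * q L A)) ?_ (by ring) ?_ ?_ ?_ x
  · have := mul_pos (neg_pos.2 hb) hLA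
    linarith
  · rw [π.pull_eq, π.b_A, mul_zero, zero_add, neg_smul, sub_eq_add_neg]
  · rw [π.pull_eq, q_symm L (π.b e), π.b_L, mul_zero, zero_smul, add_zero, mul_zero, add_zero,
      neg_smul, sub_eq_add_neg]
  · rw [π.pull_eq, hLL, π.b_L]
    simp

end Pool.Agent.H83.HP
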